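import Pool.Agent.Work.MP_3e1351_al.Defs

-- merged part: Pool.Agent.Work.MP_3e1351_al.Geo
section
/-! Amalgamation in the rational Urysohn space: freely attached copies of a finite set, flowers. -/

namespace Pool.Agent.Work.MP_3e1351_al

variable {X : Type} [MetricSpace X]

theorem pseudo (hX : IsRationalUrysohn X) {I : Type} [Finite I] (δ : I → I → ℝ)
    (h0 : ∀ i, δ i i = 0) (hs : ∀ i j, δ i j = δ j i) (ht : ∀ i j k, δ i k ≤ δ i j + δ j k)
    (hq : ∀ i j, ∃ q : ℚ, δ i j = q) : ∃ φ : I → X, ∀ i j, dist (φ i) (φ j) = δ i j := by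
  let _ : PseudoMetricSpace I :=
    { dist := δ, dist_self := h0, dist_comm := hs, dist_triangle := ht }
  obtain ⟨ψ, hψ⟩ := hX.universal (SeparationQuotient I)
    (Finite.of_surjective _ SeparationQuotient.surjective_mk) fun x y => by
      obtain ⟨i, rfl⟩ := SeparationQuotient.surjective_mk x
      obtain ⟨j, rfl⟩ := SeparationQuotient.surjective_mk y
      exact hq i j
  exact ⟨fun i => ψ (SeparationQuotient.mk i), fun i j => hψ.dist_eq _ _⟩

theorem homog (hX : IsRationalUrysohn X) {I : Type} [Finite I] (a b : I → X)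
    (h : ∀ i j, dist (a i) (a j) = dist (b i) (b j)) : ∃ g : X ≃ᵢ X, ∀ i, g (a i) = b i := by
  have hf : b.FactorsThrough a := fun i j e => by
    rw [← dist_eq_zero, ← h, e, dist_self]
  obtain ⟨g, hg⟩ := hX.homogeneous (Set.finite_range a).toFinset (Function.extend a b id) (by
    simp only [Set.Finite.mem_toFinset, Set.forall_mem_range, hf.extend_apply]
    exact fun i j => (h i j).symm)
  exact ⟨g, fun i => (hg _ (by simp)).trans (hf.extend_apply _ i)⟩

theorem rat_add {x y : ℝ} (hx : ∃ q : ℚ, x = q) (hy : ∃ q : ℚ, y = q) : ∃ q : ℚ, x + y = q := by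
  obtain ⟨a, rfl⟩ := hx
  obtain ⟨b, rfl⟩ := hy
  exact ⟨a + b, by simp⟩

theorem attach (hX : IsRationalUrysohn X) (x0 : X) (F : Finset X) {J : Type} [Finite J] (a : J → X)
    (p : J → ℝ) (hq : ∀ j, ∃ q : ℚ, p j = q) (h1 : ∀ i j, p i ≤ p j + dist (a i) (a j))
    (h2 : ∀ i j, dist (a i) (a j) ≤ p i + p j) :
    ∃ g : X ≃ᵢ X, ∀ x ∈ F, ∀ j, dist (g x) (a j) = dist x x0 + p j := by
  have h0 : ∀ j, 0 ≤ p j := fun j => by linarith [h2 j j, dist_self (a j)]
  obtain ⟨φ, hφ⟩ := pseudo hX (I := J ⊕ F)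
    (Sum.elim (fun i => Sum.elim (fun j => dist (a i) (a j)) fun y => dist y.1 x0 + p i)
      fun x => Sum.elim (fun j => dist x.1 x0 + p j) fun y => dist x.1 y.1)
    (by rintro (i | x) <;> simp) (by rintro (i | x) (j | y) <;> simp [dist_comm]) (by
      rintro (i | x) (j | y) (k | z) <;> simp only [Sum.elim_inl, Sum.elim_inr]
      · exact dist_triangle _ _ _
      · linarith [h1 i j]
      · linarith [h2 i k, dist_nonneg (x := y.1) (y := x0)]
      · linarith [dist_triangle z.1 y.1 x0, dist_comm y.1 z.1]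
      · linarith [h1 k j, dist_comm (a j) (a k)]
      · linarith [dist_triangle_right x.1 z.1 x0, h0 j]
      · linarith [dist_triangle x.1 y.1 x0]
      · exact dist_triangle _ _ _) (by
      rintro (i | x) (j | y)
      exacts [hX.rational _ _, rat_add (hX.rational _ _) (hq i), rat_add (hX.rational _ _) (hq j),
        hX.rational _ _])
  obtain ⟨k, hk⟩ := homog hX (fun j => φ (.inl j)) a fun i j => hφ _ _
  obtain ⟨g, hg⟩ := homog hX (fun x : F => x.1) (fun x => φ (.inr x)) fun x y =>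
    (hφ (.inr x) (.inr y)).symm
  refine ⟨k * g, fun x hx j => ?_⟩
  rw [IsometryEquiv.mul_apply, hg ⟨x, hx⟩, ← hk j, k.dist_eq]
  exact hφ _ _

variable (x0 : X) (F : Finset X)

/-- The copies `g F` and `g' F` are freely joined by an edge of length one. -/
def Ind (g g' : X ≃ᵢ X) : Prop :=
  ∀ x ∈ F, ∀ y ∈ F, dist (g x) (g' y) = dist x x0 + (1 + dist y x0)

/-- A family of pairwise freely joined copies. -/
def Flower {I : Type} (g : I → X ≃ᵢ X) : Prop := ∀ i j, i ≠ j → Ind x0 F (g i) (g j)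

/-- The copy `g F` is freely attached to `B` along the function `p`. -/
def Prof (B : Finset X) (p : X → ℝ) (g : X ≃ᵢ X) : Prop :=
  ∀ x ∈ F, ∀ z ∈ B, dist (g x) z = dist x x0 + p z

/-- Rational Katetov functions bounded below by one. -/
def Kat (p : X → ℝ) : Prop :=
  (∀ z, ∃ q : ℚ, p z = q) ∧ (∀ z, 1 ≤ p z) ∧
    ∀ z w, p z ≤ p w + dist z w ∧ dist z w ≤ p z + p w

variable {x0 F}

theorem Ind.symm {g g' : X ≃ᵢ X} (h : Ind x0 F g g') : Ind x0 F g' g := fun x hx y hy => by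
  rw [dist_comm, h y hy x hx]
  ring

theorem Ind.mul {g g' : X ≃ᵢ X} (h : Ind x0 F g g') (k : X ≃ᵢ X) : Ind x0 F (k * g) (k * g') :=
  fun x hx y hy => (k.dist_eq _ _).trans (h x hx y hy)

theorem Flower.comp {I J : Type} {g : I → X ≃ᵢ X} (h : Flower x0 F g) {σ : J → I}
    (hσ : Function.Injective σ) : Flower x0 F fun j => g (σ j) :=
  fun _ _ e => h _ _ (hσ.ne e)

theorem Flower.dist_eq {I : Type} {g g' : I → X ≃ᵢ X} (h : Flower x0 F g) (h' : Flower x0 F g')
    (i j : I) {x y : X} (hx : x ∈ F) (hy : y ∈ F) :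
    dist (g i x) (g j y) = dist (g' i x) (g' j y) := by
  by_cases e : i = j
  · rw [e, (g j).dist_eq, (g' j).dist_eq]
  · rw [h i j e x hx y hy, h' i j e x hx y hy]

theorem Flower.bounds {I : Type} {g : I → X ≃ᵢ X} (h : Flower x0 F g) (i j : I) {x y : X}
    (hx : x ∈ F) (hy : y ∈ F) : dist x x0 ≤ dist y x0 + dist (g i x) (g j y) ∧
      dist (g i x) (g j y) ≤ dist x x0 + (1 + dist y x0) := by
  by_cases e : i = j
  · rw [e, (g j).dist_eq]
    exact ⟨by linarith [dist_triangle x y x0], by linarith [dist_triangle_right x y x0]⟩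
  · rw [h i j e x hx y hy]
    exact ⟨by linarith [dist_nonneg (x := y) (y := x0)], le_rfl⟩

theorem one_more (hX : IsRationalUrysohn X) {B : Finset X} {p : X → ℝ} (hp : Kat p) {K : Type}
    [Finite K] {u : K → X ≃ᵢ X} (hu : Flower x0 F u)
    (hr : ∀ k, ∃ r, Prof x0 F B r (u k) ∧ ∀ z, 0 ≤ r z ∧ r z ≤ p z + 1 ∧ p z ≤ r z + 1) :
    ∃ g, Prof x0 F B p g ∧ ∀ k, Ind x0 F g (u k) := by
  obtain ⟨g, hg⟩ := attach hX x0 F (J := B ⊕ K × F) (Sum.elim (·.1) fun k => u k.1 k.2.1)
    (Sum.elim (fun z => p z.1) fun k => 1 + dist k.2.1 x0)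
    (by
      rintro (z | k)
      exacts [hp.1 _, rat_add ⟨1, by simp⟩ (hX.rational _ _)])
    (by
      rintro (z | ⟨k, x⟩) (w | ⟨l, y⟩) <;> simp only [Sum.elim_inl, Sum.elim_inr]
      · exact (hp.2.2 _ _).1
      · obtain ⟨r, h1, h2⟩ := hr l
        rw [dist_comm z.1, h1 _ y.2 _ z.2]
        linarith [h2 z, dist_nonneg (x := y.1) (y := x0)]
      · obtain ⟨r, h1, h2⟩ := hr k
        rw [h1 _ x.2 _ w.2]
        linarith [h2 w, hp.2.1 w]
      · linarith [(hu.bounds k l x.2 y.2).1])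
    (by
      rintro (z | ⟨k, x⟩) (w | ⟨l, y⟩) <;> simp only [Sum.elim_inl, Sum.elim_inr]
      · exact (hp.2.2 _ _).2
      · obtain ⟨r, h1, h2⟩ := hr l
        rw [dist_comm z.1, h1 _ y.2 _ z.2]
        linarith [h2 z]
      · obtain ⟨r, h1, h2⟩ := hr k
        rw [h1 _ x.2 _ w.2]
        linarith [h2 w]
      · linarith [(hu.bounds k l x.2 y.2).2])
  exact ⟨g, fun x hx z hz => hg x hx (.inl ⟨z, hz⟩), fun k x hx y hy => hg x hx (.inr (k, ⟨y, hy⟩))⟩

theorem grow (hX : IsRationalUrysohn X) {B : Finset X} {p : X → ℝ} (hp : Kat p) {K : Type}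
    [Finite K] {u : K → X ≃ᵢ X} (hu : Flower x0 F u)
    (hr : ∀ k, ∃ r, Prof x0 F B r (u k) ∧ ∀ z, 0 ≤ r z ∧ r z ≤ p z + 1 ∧ p z ≤ r z + 1) (n : ℕ) :
    ∃ W : Fin n → X ≃ᵢ X, Flower x0 F W ∧ (∀ i, Prof x0 F B p (W i)) ∧
      ∀ i k, Ind x0 F (W i) (u k) := by
  induction n with
  | zero => exact ⟨Fin.elim0, fun i => i.elim0, fun i => i.elim0, fun i => i.elim0⟩
  | succ n ih =>
    obtain ⟨W, h1, h2, h3⟩ := ih
    obtain ⟨g, g1, g2⟩ := one_more hX hp (B := B) (u := Sum.elim u W) (by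
      rintro (k | i) (l | j) e
      exacts [hu k l fun h => e (congrArg _ h), (h3 j k).symm, h3 i l,
        h1 i j fun h => e (congrArg _ h)]) (by
      rintro (k | i)
      exacts [hr k, ⟨p, h2 i, fun z => ⟨by linarith [hp.2.1 z], by linarith, by linarith⟩⟩])
    refine ⟨Fin.cons g W, fun i j => ?_, Fin.cases g1 h2, Fin.cases (fun k => g2 (.inl k)) h3⟩
    refine Fin.cases (Fin.cases (fun e => absurd rfl e) (fun j _ => g2 (.inr j)) j)
      (fun i => Fin.cases (fun _ => (g2 (.inr i)).symm) (fun j e => ?_) j) i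
    exact h1 i j fun h => e (congrArg _ h)

theorem exists_kat (hX : IsRationalUrysohn X) (h0 : x0 ∈ F) {I : Type} [Finite I] [Nonempty I]
    {S : I → X ≃ᵢ X} (hS : Flower x0 F S) : ∃ p, Kat p ∧ (∀ z, ∃ i, p z = 1 + dist z (S i x0)) ∧
      (∀ z i, p z ≤ 1 + dist z (S i x0)) ∧ ∀ i, ∀ x ∈ F, p (S i x) = 1 + dist x x0 := by
  choose m hm using fun z => Finite.exists_min fun i => dist z (S i x0)
  refine ⟨fun z => 1 + dist z (S (m z) x0), ⟨fun z => rat_add ⟨1, by simp⟩ (hX.rational _ _),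
    fun z => le_add_of_nonneg_right dist_nonneg, fun z w => ⟨?_, ?_⟩⟩, fun z => ⟨_, rfl⟩,
    fun z i => by linarith [hm z i], fun i x hx => le_antisymm ?_ ?_⟩
  · linarith [hm z (m w), dist_triangle z w (S (m w) x0)]
  · linarith [dist_triangle4 z (S (m z) x0) (S (m w) x0) w, (hS.bounds (m z) (m w) h0 h0).2,
      dist_self x0, dist_comm w (S (m w) x0)]
  · linarith [hm (S i x) i, (S i).dist_eq x x0]
  · linarith [(hS.bounds i (m (S i x)) hx h0).1, dist_self x0]

theorem Kat.mix {p q : X → ℝ} (hp : Kat p) (hq : Kat q) {t : ℚ} (h0 : (0 : ℝ) ≤ t)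
    (h1 : (t : ℝ) ≤ 1) : Kat fun z => (1 - t) * p z + t * q z := by
  refine ⟨fun z => ?_, fun z => ?_, fun z w => ⟨?_, ?_⟩⟩
  · obtain ⟨a, ha⟩ := hp.1 z
    obtain ⟨b, hb⟩ := hq.1 z
    exact ⟨(1 - t) * a + t * b, by simp [ha, hb]⟩
  · nlinarith [mul_le_mul_of_nonneg_left (hp.2.1 z) (sub_nonneg.2 h1),
      mul_le_mul_of_nonneg_left (hq.2.1 z) h0]
  · nlinarith [mul_le_mul_of_nonneg_left (hp.2.2 z w).1 (sub_nonneg.2 h1),
      mul_le_mul_of_nonneg_left (hq.2.2 z w).1 h0]
  · nlinarith [mul_le_mul_of_nonneg_left (hp.2.2 z w).2 (sub_nonneg.2 h1),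
      mul_le_mul_of_nonneg_left (hq.2.2 z w).2 h0]

/-- Any two flowers are joined by a chain of flowers whose length depends only on the distance of
the centres. -/
theorem chain (hX : IsRationalUrysohn X) (h0 : x0 ∈ F) {N : ℕ} (hN : 0 < N)
    {S T : Fin N → X ≃ᵢ X} (hS : Flower x0 F S) (hT : Flower x0 F T) {D : ℕ} (hD : 0 < D)
    (hd : ∀ i j, dist (S i x0) (T j x0) ≤ D) {Y : Type} [PseudoMetricSpace Y]
    (m : (Fin N → X ≃ᵢ X) → Y) {δ : ℝ} (hm : ∀ U V, Flower x0 F U → Flower x0 F V →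
      (∀ i j, Ind x0 F (U i) (V j)) → dist (m U) (m V) ≤ δ) : dist (m S) (m T) ≤ (D + 2) * δ := by
  classical
  have : Nonempty (Fin N) := ⟨⟨0, hN⟩⟩
  obtain ⟨p, p1, p2, p3, p4⟩ := exists_kat hX h0 hS
  obtain ⟨q, q1, q2, q3, q4⟩ := exists_kat hX h0 hT
  have D0 : (0 : ℝ) < D := Nat.cast_pos.2 hD
  have pq : ∀ z, p z - q z ≤ D ∧ q z - p z ≤ D := fun z => by
    obtain ⟨i, hi⟩ := p2 z
    obtain ⟨j, hj⟩ := q2 z
    exact ⟨by linarith [p3 z i, dist_triangle_right z (S i x0) (T j x0), hd i j,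
      dist_triangle z (T j x0) (S i x0), dist_comm (T j x0) (S i x0)],
      by linarith [q3 z j, dist_triangle z (S i x0) (T j x0), hd i j]⟩
  obtain ⟨B, bS, bT⟩ : ∃ B : Finset X, (∀ i, ∀ x ∈ F, S i x ∈ B) ∧ ∀ i, ∀ x ∈ F, T i x ∈ B :=
    ⟨Finset.univ.biUnion fun i => F.image (S i) ∪ F.image (T i), fun i x hx =>
      Finset.mem_biUnion.2 ⟨i, Finset.mem_univ _, Finset.mem_union_left _
        (Finset.mem_image_of_mem _ hx)⟩, fun i x hx => Finset.mem_biUnion.2 ⟨i, Finset.mem_univ _,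
          Finset.mem_union_right _ (Finset.mem_image_of_mem _ hx)⟩⟩
  have kat : ∀ t : ℕ, t ≤ D → Kat fun z => (1 - (t : ℝ) / D) * p z + t / D * q z := fun t ht => by
    have := p1.mix q1 (t := t / D) (by push_cast; positivity) (by
      push_cast
      exact (div_le_one D0).2 (Nat.cast_le.2 ht))
    push_cast at this
    exact this
  have key : ∀ t : ℕ, t ≤ D → ∃ W, Flower x0 F W ∧
      (∀ i, Prof x0 F B (fun z => (1 - (t : ℝ) / D) * p z + t / D * q z) (W i)) ∧
      dist (m S) (m W) ≤ (t + 1) * δ := fun t => by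
    induction t with
    | zero =>
      intro ht
      obtain ⟨W, h1, h2, -⟩ := grow hX (x0 := x0) (F := F) (B := B) (kat 0 ht) (K := Empty)
        (u := Empty.elim) (fun i => i.elim) (fun i => i.elim) N
      refine ⟨W, h1, h2, (hm S W hS h1 fun i j => Ind.symm fun x hx y hy => ?_).trans_eq (by simp)⟩
      simp [h2 j x hx _ (bS i y hy), p4 i y hy]
    | succ t ih =>
      intro ht
      obtain ⟨V, v1, v2, v3⟩ := ih (Nat.le_of_succ_le ht)
      obtain ⟨W, h1, h2, h3⟩ := grow hX (B := B) (kat (t + 1) ht) v1 (fun k => ⟨_, v2 k, fun z => by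
        have e : (1 - ((t + 1 : ℕ) : ℝ) / D) * p z + (t + 1 : ℕ) / D * q z =
            (1 - (t : ℝ) / D) * p z + t / D * q z + (q z - p z) / D := by
          push_cast
          ring
        have a := (div_le_one D0).2 (pq z).1
        have b := (div_le_one D0).2 (pq z).2
        have c : (p z - q z) / D = -((q z - p z) / D) := by ring
        exact ⟨zero_le_one.trans ((kat t (Nat.le_of_succ_le ht)).2.1 z), by linarith,
          by linarith⟩⟩) N
      refine ⟨W, h1, h2, ?_⟩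
      have := hm W V h1 v1 h3
      push_cast
      linarith [dist_triangle_right (m S) (m W) (m V)]
  obtain ⟨W, h1, h2, h3⟩ := key D le_rfl
  have := hm W T h1 hT fun i j x hx y hy => by
    simp [h2 i x hx _ (bT j y hy), q4 j y hy, D0.ne']
  linarith [dist_triangle (m S) (m W) (m T)]

/-- Recursive choice. -/
noncomputable def sq {A : Type} [Nonempty A] (R : ℕ → ℕ → A → A → Prop) (n : ℕ) : A :=
  Classical.epsilon fun y => ∀ m : Fin n, R m n (sq R m) y
termination_by n
decreasing_by exact m.2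

theorem exists_seq (hX : IsRationalUrysohn X) (x0 : X) (F : ℕ → Finset X) :
    ∃ g : ℕ → X ≃ᵢ X, ∀ m n, m < n → ∀ x ∈ F m, ∀ y ∈ F n,
      dist (g n y) (g m x) = dist y x0 + (1 + dist x x0) := by
  let R : ℕ → ℕ → (X ≃ᵢ X) → (X ≃ᵢ X) → Prop := fun m n g g' => ∀ x ∈ F m, ∀ y ∈ F n,
    dist (g' y) (g x) = dist y x0 + (1 + dist x x0)
  have : Nonempty (X ≃ᵢ X) := ⟨1⟩
  suffices ∀ n, ∀ m : Fin n, R m n (sq R m) (sq R n) from ⟨sq R, fun m n h => this n ⟨m, h⟩⟩
  intro n
  induction n using Nat.strong_induction_on with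
  | _ n ih =>
    have b : ∀ i j : (m : Fin n) × F m, dist i.2.1 x0 ≤ dist j.2.1 x0 +
        dist (sq R i.1 i.2.1) (sq R j.1 j.2.1) ∧ dist (sq R i.1 i.2.1) (sq R j.1 j.2.1) ≤
          dist i.2.1 x0 + (1 + dist j.2.1 x0) := by
      rintro ⟨i, x⟩ ⟨j, y⟩
      have a1 := dist_nonneg (x := x.1) (y := x0)
      have a2 := dist_nonneg (x := y.1) (y := x0)
      rcases lt_trichotomy i j with h | rfl | h
      · have := ih j j.2 ⟨i, h⟩ _ x.2 _ y.2
        rw [dist_comm] at this
        exact ⟨by linarith, by linarith⟩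
      · simp only [IsometryEquiv.dist_eq]
        exact ⟨by linarith [dist_triangle x.1 y.1 x0], by linarith [dist_triangle_right x.1 y.1 x0]⟩
      · have := ih i i.2 ⟨j, h⟩ _ y.2 _ x.2
        exact ⟨by linarith, by linarith⟩
    obtain ⟨g, hg⟩ := attach hX x0 (F n) (J := (m : Fin n) × F m) (fun i => sq R i.1 i.2.1)
      (fun i => 1 + dist i.2.1 x0) (fun _ => rat_add ⟨1, by simp⟩ (hX.rational _ _))
      (fun i j => by linarith [(b i j).1]) fun i j => by linarith [(b i j).2]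
    rw [sq]
    exact Classical.epsilon_spec (p := fun y => ∀ m : Fin n, R m n (sq R m) y)
      ⟨g, fun m x hx y hy => hg y hy ⟨m, x, hx⟩⟩

end Pool.Agent.Work.MP_3e1351_al
end

-- merged part: Pool.Agent.Work.MP_3e1351_al.Ban
section
/-! Almost exchangeable sequences in a Banach space without a copy of the space of summable
sequences. -/

namespace Pool.Agent.Work.MP_3e1351_al

open Finset Filter Topology

variable {E : Type} [NormedAddCommGroup E] [NormedSpace ℝ E]

theorem l1_summable {I : Type} (a : lp (fun _ : I => ℝ) 1) : Summable fun i => |a i| := by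
  simpa using a.2.summable

theorem l1_norm {I : Type} (a : lp (fun _ : I => ℝ) 1) : ‖a‖ = ∑' i, |a i| := by
  simpa using lp.norm_eq_tsum_rpow (p := 1) (by simp) a

theorem embeds_of_seq [CompleteSpace E] (e : ℕ → E) {C c : ℝ} (hc : 0 < c) (h1 : ∀ n, ‖e n‖ ≤ C)
    (h2 : ∀ (N : ℕ) (a : ℕ → ℝ), c * ∑ n ∈ range N, |a n| ≤ ‖∑ n ∈ range N, a n • e n‖) :
    Embeds (lp (fun _ : ℕ => ℝ) 1) E := by
  have b : ∀ (a : lp (fun _ : ℕ => ℝ) 1) n, ‖a n • e n‖ ≤ C * |a n| := fun a n => by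
    rw [norm_smul, mul_comm]
    exact mul_le_mul_of_nonneg_right (h1 n) (abs_nonneg _)
  have s : ∀ a : lp (fun _ : ℕ => ℝ) 1, Summable fun n => a n • e n := fun a =>
    .of_norm_bounded ((l1_summable a).mul_left C) (b a)
  refine ⟨LinearMap.mkContinuous ⟨⟨fun a => ∑' n, a n • e n, fun a a' => ?_⟩, fun r a => ?_⟩ C
    fun a => ?_, c, hc, fun a => ?_⟩
  · rw [← (s a).tsum_add (s a')]
    exact tsum_congr fun n => add_smul _ _ _
  · rw [RingHom.id_apply, ← (s a).tsum_const_smul]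
    exact tsum_congr fun n => mul_smul _ _ _
  · rw [l1_norm, ← tsum_mul_left]
    exact tsum_of_norm_bounded ((l1_summable a).mul_left C).hasSum (b a)
  · rw [l1_norm]
    exact le_of_tendsto_of_tendsto' ((l1_summable a).hasSum.tendsto_sum_nat.const_mul c)
      (s a).hasSum.tendsto_sum_nat.norm fun N => h2 N a

/-- Almost exchangeable sequences. -/
def Exch (w : ℕ → E) (ε : ℝ) : Prop :=
  ∀ (I : Type) [Fintype I] (σ τ : I → ℕ), Function.Injective σ → Function.Injective τ →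
    ∀ a : I → ℝ, ∑ i, a i = 0 → ‖∑ i, a i • w (σ i)‖ ≤ ‖∑ i, a i • w (τ i)‖ + ε * ∑ i, |a i|

theorem inj_two {I : Type} {f : I → ℕ} (hf : Function.Injective f) (s : I → Bool) :
    Function.Injective fun p : I × Bool => 2 * f p.1 + if p.2 = s p.1 then 0 else 1 := by
  rintro ⟨i, b⟩ ⟨j, c⟩ h
  obtain rfl : i = j := hf (by
    dsimp only at h
    split_ifs at h <;> omega)
  dsimp only at h
  cases b <;> cases c <;> cases hs : s i <;> simp_all

theorem Exch.pair {w : ℕ → E} {ε : ℝ} (hw : Exch w ε) {I : Type} [Fintype I] {f f' : I → ℕ}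
    (hf : Function.Injective f) (hf' : Function.Injective f') (a : I → ℝ) :
    ‖∑ i, |a i| • (w (2 * f i) - w (2 * f i + 1))‖ ≤
      ‖∑ i, a i • (w (2 * f' i) - w (2 * f' i + 1))‖ + 2 * ε * ∑ i, |a i| := by
  have h := hw (I × Bool) _ _ (inj_two hf fun _ => true) (inj_two hf' fun i => decide (0 ≤ a i))
    (fun p => if p.2 then |a p.1| else -|a p.1|) (by simp [Fintype.sum_prod_type])
  simp only [Fintype.sum_prod_type, Fintype.sum_bool, if_true, Bool.false_eq_true, if_false,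
    add_zero, abs_neg, abs_abs, neg_smul, ← sub_eq_add_neg, ← smul_sub, ← two_mul,
    ← mul_sum] at h
  rw [mul_comm 2 ε, mul_assoc]
  refine h.trans_eq (congrArg (‖·‖ + _) (sum_congr rfl fun i _ => ?_))
  by_cases e : 0 ≤ a i
  · simp [e, abs_of_nonneg e]
  · simp [e, abs_of_neg (not_le.1 e), smul_sub, neg_add_eq_sub]

theorem Exch.exists_small [CompleteSpace E] {w : ℕ → E} {ε : ℝ} (hw : Exch w ε) (hε : 0 < ε)
    (hE : ¬ Embeds (lp (fun _ : ℕ => ℝ) 1) E) :
    ∃ N : ℕ, 0 < N ∧ ‖∑ i : Fin N, (w (2 * i) - w (2 * i + 1))‖ ≤ 3 * ε * N := by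
  by_contra h
  push Not at h
  refine hE (embeds_of_seq (fun n => w (2 * n) - w (2 * n + 1)) (C := ‖w 0 - w 1‖ + 2 * ε) hε
    (fun n => ?_) fun N a => ?_)
  · simpa using hw.pair (I := Unit) (f := fun _ => n) (f' := fun _ => 0)
      (Function.injective_of_subsingleton _) (Function.injective_of_subsingleton _) fun _ => 1
  rcases N with _ | N
  · simp
  have k : ∀ j : Fin (N + 1), _ := fun j => hw.pair (f := fun i : Fin (N + 1) => (i + j).1)
    (f' := Fin.val) (Fin.val_injective.comp (add_left_injective j)) Fin.val_injective fun i => a i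
  have k2 := (norm_sum_le _ _).trans (sum_le_sum fun j (_ : j ∈ univ) => k j)
  have e : ∀ i : Fin (N + 1), ∑ j : Fin (N + 1), (w (2 * (i + j).1) - w (2 * (i + j).1 + 1)) =
      ∑ j : Fin (N + 1), (w (2 * j) - w (2 * j + 1)) := fun i =>
    Equiv.sum_comp (Equiv.addLeft i) fun j : Fin (N + 1) => w (2 * j) - w (2 * j + 1)
  have s0 : 0 ≤ ∑ i : Fin (N + 1), |a i| := sum_nonneg fun _ _ => abs_nonneg _
  rw [sum_comm] at k2
  simp only [← smul_sum, e, ← sum_smul, norm_smul, Real.norm_of_nonneg s0, sum_const, card_univ,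
    Fintype.card_fin, nsmul_eq_mul] at k2
  rw [← Fin.sum_univ_eq_sum_range (fun n => |a n|),
    ← Fin.sum_univ_eq_sum_range fun n => a n • (w (2 * n) - w (2 * n + 1))]
  have k3 := mul_le_mul_of_nonneg_left (h (N + 1) N.succ_pos).le s0
  refine le_of_mul_le_mul_left ?_ (Nat.cast_pos.2 N.succ_pos : (0 : ℝ) < (N + 1 : ℕ))
  nlinarith

end Pool.Agent.Work.MP_3e1351_al
end

-- merged part: Pool.Agent.Work.MP_3e1351_al.Main
section
/-! The fixed point: the limit of the barycentres of flowers. -/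

namespace Pool.Agent.Work.MP_3e1351_al

open Finset Filter Topology

variable {X E : Type} [MetricSpace X] [NormedAddCommGroup E] [NormedSpace ℝ E]
  {α : (X ≃ᵢ X) →* (E ≃ᵃⁱ[ℝ] E)} {x0 : X} {F : Finset X} {ε : ℝ}

theorem act_eq (f : E ≃ᵃⁱ[ℝ] E) (w : E) : f w = f.linearIsometryEquiv w + f 0 := by
  simpa using f.map_vadd 0 w

theorem act_mul (α : (X ≃ᵢ X) →* (E ≃ᵃⁱ[ℝ] E)) (g h : X ≃ᵢ X) (w : E) :
    α (g * h) w = α g (α h w) := by
  rw [map_mul]
  rfl

variable (α) in
/-- The pointwise stabiliser of `F` moves the origin by at most `ε`. -/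
def Good (F : Finset X) (ε : ℝ) : Prop := ∀ h : X ≃ᵢ X, (∀ x ∈ F, h x = x) → dist (α h 0) 0 ≤ ε

theorem Good.close (hF : Good α F ε) {g g' : X ≃ᵢ X} (h : ∀ x ∈ F, g' x = g x) :
    ‖α g 0 - α g' 0‖ ≤ ε := by
  have := hF (g'⁻¹ * g) fun x hx => by
    rw [IsometryEquiv.mul_apply, ← h x hx, IsometryEquiv.inv_apply_self]
  rwa [← (α g').dist_map, ← act_mul, mul_inv_cancel_left, dist_eq_norm] at this

theorem transport (hX : IsRationalUrysohn X) (hF : Good α F ε) {I : Type} [Fintype I]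
    {g g' : I → X ≃ᵢ X} (hg : Flower x0 F g) (hg' : Flower x0 F g') (a : I → ℝ)
    (ha : ∑ i, a i = 0) : ‖∑ i, a i • α (g i) 0‖ ≤ ‖∑ i, a i • α (g' i) 0‖ + ε * ∑ i, |a i| := by
  obtain ⟨h, hh⟩ := homog hX (I := I × F) (fun p => g' p.1 p.2.1) (fun p => g p.1 p.2.1)
    fun p q => hg'.dist_eq hg _ _ p.2.2 q.2.2
  have e : ∑ i, a i • α (g i) 0 = (α h).linearIsometryEquiv (∑ i, a i • α (g' i) 0) +
      ∑ i, a i • (α (g i) 0 - α (h * g' i) 0) := by
    have : ∀ i, α (h * g' i) 0 = (α h).linearIsometryEquiv (α (g' i) 0) + α h 0 := fun i => by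
      rw [act_mul, act_eq]
    simp only [this, map_sum, map_smul, smul_sub, smul_add, sum_sub_distrib, sum_add_distrib,
      ← sum_smul, ha, zero_smul, add_zero, add_sub_cancel]
  rw [e, mul_sum]
  refine (norm_add_le _ _).trans (add_le_add (LinearIsometryEquiv.norm_map _ _).le
    (norm_sum_le_of_le _ fun i _ => ?_))
  rw [norm_smul, mul_comm]
  exact mul_le_mul_of_nonneg_right (hF.close fun x hx => hh (i, ⟨x, hx⟩)) (abs_nonneg _)

/-- The mean of a finite family. -/
noncomputable def mean {N : ℕ} (b : Fin N → E) : E := (N : ℝ)⁻¹ • ∑ i, b i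

theorem dist_mean {N : ℕ} (hN : 0 < N) {a : E} {b : Fin N → E} {δ : ℝ} (h : ∀ i, dist a (b i) ≤ δ) :
    dist a (mean b) ≤ δ := by
  have N0 : (0 : ℝ) < N := Nat.cast_pos.2 hN
  have e : a - mean b = (N : ℝ)⁻¹ • ∑ i, (a - b i) := by
    rw [sum_sub_distrib, smul_sub, sum_const, card_univ, Fintype.card_fin, ← Nat.cast_smul_eq_nsmul ℝ,
      inv_smul_smul₀ N0.ne', mean]
  rw [dist_eq_norm, e, norm_smul, Real.norm_of_nonneg (by positivity), inv_mul_le_iff₀ N0]
  refine (norm_sum_le_of_le _ fun i _ => (dist_eq_norm _ _).ge.trans (h i)).trans_eq ?_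
  simp

theorem mean_comm {M N : ℕ} (b : Fin M → Fin N → E) :
    mean (fun i => mean (b i)) = mean fun j => mean fun i => b i j := by
  simp only [mean, ← smul_sum]
  rw [sum_comm, smul_comm]

theorem map_mean {N : ℕ} (hN : 0 < N) (f : E ≃ᵃⁱ[ℝ] E) (b : Fin N → E) :
    f (mean b) = mean fun i => f (b i) := by
  have N0 : (N : ℝ) ≠ 0 := Nat.cast_ne_zero.2 hN.ne'
  rw [act_eq, funext fun i => act_eq f (b i), mean, mean, sum_add_distrib, smul_add, map_smul, map_sum,
    sum_const, card_univ, Fintype.card_fin, ← Nat.cast_smul_eq_nsmul ℝ, inv_smul_smul₀ N0]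

theorem exists_step [CompleteSpace E] (hX : IsRationalUrysohn X) (hF : Good α F ε) (hε : 0 < ε)
    (hE : ¬ Embeds (lp (fun _ : ℕ => ℝ) 1) E) {u : ℕ → X ≃ᵢ X} (hu : Flower x0 F u) :
    ∃ N : ℕ, 0 < N ∧ ∀ U V : Fin N → X ≃ᵢ X, Flower x0 F U → Flower x0 F V →
      (∀ i j, Ind x0 F (U i) (V j)) →
        dist (mean fun i => α (U i) 0) (mean fun i => α (V i) 0) ≤ 5 * ε := by
  obtain ⟨N, hN, h⟩ := Exch.exists_small (w := fun n => α (u n) 0)
    (fun I _ σ τ hσ hτ => transport hX hF (hu.comp hσ) (hu.comp hτ)) hε hE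
  refine ⟨N, hN, fun U V hU hV hUV => ?_⟩
  have N0 : (0 : ℝ) < N := Nat.cast_pos.2 hN
  have k := transport hX hF (g := Sum.elim U V) (by
      rintro (i | i) (j | j) e
      exacts [hU i j fun h => e (congrArg _ h), hUV i j, (hUV j i).symm,
        hV i j fun h => e (congrArg _ h)])
    (hu.comp (σ := Sum.elim (fun i : Fin N => 2 * i.1) fun i : Fin N => 2 * i.1 + 1) (by
      rintro (i | i) (j | j) e <;> simp only [Sum.elim_inl, Sum.elim_inr] at e
      · exact congrArg _ (Fin.ext (by omega))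
      · omega
      · omega
      · exact congrArg _ (Fin.ext (by omega))))
    (Sum.elim (fun _ => 1) fun _ => -1) (by simp)
  simp only [Fintype.sum_sum_type, Sum.elim_inl, Sum.elim_inr, one_smul, neg_smul, sum_neg_distrib,
    ← sub_eq_add_neg, abs_neg, abs_one, sum_const, card_univ, Fintype.card_fin, nsmul_eq_mul,
    mul_one] at k
  rw [sum_sub_distrib] at h
  rw [dist_eq_norm, mean, mean, ← smul_sub, norm_smul, Real.norm_of_nonneg (by positivity),
    inv_mul_le_iff₀ N0]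
  linarith

theorem fixed_point [CompleteSpace E] (hX : IsRationalUrysohn X)
    (hE : ¬ Embeds (lp (fun _ : ℕ => ℝ) 1) E) (hα : IsContinuousAction α) :
    ∃ v, ∀ g, α g v = v := by
  classical
  obtain ⟨φ, -⟩ := pseudo hX (I := Unit) (fun _ _ => 0) (by simp) (by simp) (by simp)
    fun _ _ => ⟨0, by simp⟩
  obtain ⟨ε, hε⟩ : ∃ ε : ℕ → ℝ, ε = fun k : ℕ => 1 / ((k : ℝ) + 1) := ⟨_, rfl⟩
  have ε0 : ∀ k, 0 < ε k := fun k => by
    rw [hε]
    exact Nat.one_div_pos_of_nat
  have ε1 : ∀ k l, k ≤ l → ε l ≤ ε k := fun k l h => by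
    rw [hε]
    exact Nat.one_div_le_one_div h
  have ε2 : Tendsto ε atTop (𝓝 0) := hε ▸ tendsto_one_div_add_atTop_nhds_zero_nat
  choose F0 hF0 using fun k => hα 0 1 (ε k) (ε0 k)
  obtain ⟨F, F1, F2, F3⟩ : ∃ F : ℕ → Finset X, (∀ k, φ () ∈ F k) ∧ (∀ k l, k ≤ l → F k ⊆ F l) ∧
      ∀ k, Good α (F k) (ε k) :=
    ⟨fun k => insert (φ ()) ((range (k + 1)).biUnion F0), fun k => mem_insert_self _ _,
      fun k l h => insert_subset_insert _ (biUnion_subset_biUnion_of_subset_left _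
        (range_mono (Nat.succ_le_succ h))), fun k h hh => by
      simpa using (hF0 k h fun x hx => hh x (mem_insert_of_mem
        (mem_biUnion.2 ⟨k, self_mem_range_succ k, hx⟩))).le⟩
  obtain ⟨g, hg⟩ := exists_seq hX (φ ()) F
  have ind : ∀ k m n, k ≤ m → k ≤ n → m ≠ n → Ind (φ ()) (F k) (g m) (g n) :=
    fun k m n hm hn e => (lt_or_gt_of_ne e).elim
      (fun h => Ind.symm fun y hy x hx => hg m n h x (F2 _ _ hm hx) y (F2 _ _ hn hy))
      fun h y hy x hx => hg n m h x (F2 _ _ hn hx) y (F2 _ _ hm hy)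
  have fl : ∀ (k : ℕ) {I : Type} (σ : I → ℕ), Function.Injective σ →
      Flower (φ ()) (F k) fun i => g (k + σ i) := fun k _ σ hσ i j e =>
    ind k _ _ le_self_add le_self_add fun h => e (hσ (Nat.add_left_cancel h))
  choose N N0 hN using fun k => exists_step hX (F3 k) (ε0 k) hE (fl k id Function.injective_id)
  let m : ℕ → E := fun k => mean fun i : Fin (N k) => α (g (k + i)) 0
  have far : ∀ k L (σ : Fin (N k) → ℕ), Function.Injective σ → k + N k ≤ L →
      dist (m k) (mean fun i => α (g (L + σ i)) 0) ≤ 5 * ε k := fun k L σ hσ hL =>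
    hN k _ (fun i => g (L + σ i)) (fl k _ Fin.val_injective)
      (fun i j e => ind k _ _ (by omega) (by omega) fun h => e (hσ (Nat.add_left_cancel h)))
      fun i j => ind k _ _ (by omega) (by omega) (by omega)
  have cau : ∀ k l, dist (m k) (m l) ≤ 5 * ε k + 5 * ε l := fun k l => by
    have inj : Function.Injective fun p : Fin (N k) × Fin (N l) => (finProdFinEquiv p).1 :=
      Fin.val_injective.comp finProdFinEquiv.injective
    have a := dist_mean (N0 l) fun j => far k (k + N k + l + N l) _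
      (inj.comp (Prod.mk_left_injective j)) (by omega)
    have b := dist_mean (N0 k) fun i => far l (k + N k + l + N l) _
      (inj.comp (Prod.mk_right_injective i)) (by omega)
    rw [mean_comm] at b
    exact (dist_triangle_right _ _ _).trans (add_le_add a b)
  obtain ⟨v, hv⟩ := cauchySeq_tendsto_of_complete (cauchySeq_of_le_tendsto_0 (s := m)
    (fun k => 10 * ε k) (fun k l n hk hl => by linarith [cau k l, ε1 _ _ hk, ε1 _ _ hl])
    (by simpa using ε2.const_mul 10))
  refine ⟨v, fun h => ?_⟩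
  obtain ⟨D, hD⟩ := exists_nat_ge (dist (g 0 (φ ())) (h (g 0 (φ ()))) + 2)
  have one : ∀ a b, dist (g a (φ ())) (g b (φ ())) ≤ 1 := fun a b => by
    simpa using ((fl 0 id Function.injective_id).bounds a b (F1 0) (F1 0)).2
  have key : ∀ k, dist (m k) (α h (m k)) ≤ (D + 2) * (5 * ε k) := fun k => by
    have := chain hX (F1 k) (N0 k) (fl k _ Fin.val_injective) (T := fun i => h * g (k + i))
      (fun i j e => (fl k _ Fin.val_injective i j e).mul h) (D := D)
      (Nat.cast_pos.1 (lt_of_lt_of_le (by positivity : (0 : ℝ) < _) hD)) (fun i j => by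
        rw [IsometryEquiv.mul_apply]
        linarith [dist_triangle4 (g (k + i) (φ ())) (g 0 (φ ())) (h (g 0 (φ ())))
          (h (g (k + j) (φ ()))), one (k + i) 0, one 0 (k + j), h.dist_eq (g 0 (φ ()))
            (g (k + j) (φ ()))]) (fun U => mean fun i => α (U i) 0) (hN k)
    simpa only [m, map_mean (N0 k), act_mul] using this
  refine (dist_le_zero.1 (le_of_tendsto_of_tendsto'
    (hv.dist (((α h).continuous.tendsto v).comp hv)) ?_ key)).symm
  simpa using (ε2.const_mul 5).const_mul ((D : ℝ) + 2)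

end Pool.Agent.Work.MP_3e1351_al
end

-- merged part: Pool.Agent.Work.MP_3e1351_al.Conv
section
/-! The action without fixed point on the hyperplane of summable functions of sum one. -/

namespace Pool.Agent.Work.MP_3e1351_al

open Finset Filter Topology
open scoped Classical

/-- Reindexing of summable functions. -/
def perm {I J : Type} (e : I ≃ J) : lp (fun _ : I => ℝ) 1 →ₗᵢ[ℝ] lp (fun _ : J => ℝ) 1 where
  toFun a := ⟨fun j => a (e.symm j), memℓp_gen (by
    simpa [Function.comp_def] using (e.symm.summable_iff (f := fun i => |a i|)).2 (l1_summable a))⟩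
  map_add' _ _ := rfl
  map_smul' _ _ := rfl
  norm_map' a := by
    rw [l1_norm, l1_norm]
    exact e.symm.tsum_eq fun i => |a i|

theorem perm_single {I J : Type} (e : I ≃ J) (i : I) (c : ℝ) :
    perm e (lp.single 1 i c) = lp.single 1 (e i) c := by
  ext j
  change (lp.single 1 i c : lp (fun _ : I => ℝ) 1) (e.symm j) = _
  simp only [lp.single_apply, Pi.single_apply, Equiv.symm_apply_eq]

theorem sum_perm {I J : Type} (e : I ≃ J) (a : lp (fun _ : I => ℝ) 1) :
    lp.tsumCLM ℝ J ℝ (perm e a) = lp.tsumCLM ℝ I ℝ a :=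
  e.symm.tsum_eq fun i => a i

theorem sum_single {I : Type} (i : I) : lp.tsumCLM ℝ I ℝ (lp.single 1 i 1) = 1 := by
  simp [lp.single_apply, Pi.single_apply]

variable {X : Type} [MetricSpace X]

/-- Summable functions of sum zero. -/
noncomputable abbrev Z (X : Type) : Submodule ℝ (lp (fun _ : X => ℝ) 1) := (lp.tsumCLM ℝ X ℝ).ker

/-- The linear part of the action. -/
noncomputable def lin (g : X ≃ᵢ X) : Z X ≃ₗᵢ[ℝ] Z X where
  toFun a := ⟨perm g.toEquiv a, (sum_perm _ _).trans a.2⟩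
  invFun a := ⟨perm g.toEquiv.symm a, (sum_perm _ _).trans a.2⟩
  map_add' _ _ := rfl
  map_smul' _ _ := rfl
  left_inv a := Subtype.ext (lp.ext (funext fun x => congrArg a.1 (g.toEquiv.symm_apply_apply x)))
  right_inv a := Subtype.ext (lp.ext (funext fun x => congrArg a.1 (g.toEquiv.apply_symm_apply x)))
  norm_map' a := (perm g.toEquiv).norm_map a.1

/-- The affine map attached to an isometry. -/
noncomputable def aff (x0 : X) (g : X ≃ᵢ X) : Z X ≃ᵃⁱ[ℝ] Z X :=
  (lin g).toAffineIsometryEquiv.trans (AffineIsometryEquiv.constVAdd ℝ (Z X)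
    ⟨lp.single 1 (g x0) 1 - lp.single 1 x0 1, by
      change lp.tsumCLM ℝ X ℝ _ = 0
      rw [map_sub, sum_single, sum_single, sub_self]⟩)

theorem aff_apply (x0 : X) (g : X ≃ᵢ X) (a : Z X) :
    (aff x0 g a).1 + lp.single 1 x0 1 = perm g.toEquiv (a.1 + lp.single 1 x0 1) := by
  rw [map_add, perm_single]
  change lp.single 1 (g x0) 1 - lp.single 1 x0 1 + perm g.toEquiv a.1 + _ = _ + lp.single 1 (g x0) 1
  abel

/-- The affine action. -/
noncomputable def act (x0 : X) : (X ≃ᵢ X) →* (Z X ≃ᵃⁱ[ℝ] Z X) :=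
  MonoidHom.mk' (aff x0) fun g h => AffineIsometryEquiv.ext fun a => Subtype.ext
    (add_right_cancel (b := lp.single 1 x0 1) (by
      change _ = (aff x0 g (aff x0 h a)).1 + _
      rw [aff_apply, aff_apply, aff_apply]
      rfl))

theorem act_cont (x0 : X) : IsContinuousAction (act x0) := fun v g ε hε => by
  obtain ⟨s, hs⟩ := (Metric.tendsto_nhds.1 (lp.hasSum_single (p := 1) (by simp)
    (v.1 + lp.single 1 x0 1)) _ (half_pos hε)).exists
  refine ⟨s, fun h hh => ?_⟩
  generalize hη : v.1 + lp.single 1 x0 1 = η at hs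
  have e : perm h.toEquiv (∑ x ∈ s, lp.single 1 x (η x)) =
      perm g.toEquiv (∑ x ∈ s, lp.single 1 x (η x)) := by
    simp only [map_sum, perm_single]
    exact sum_congr rfl fun x hx => congrArg (lp.single 1 · _) (hh x hx)
  change dist (aff x0 h v).1 (aff x0 g v).1 < ε
  rw [← dist_add_right _ _ (lp.single 1 x0 1), aff_apply, aff_apply, hη]
  have := dist_triangle_left (perm h.toEquiv η) (perm g.toEquiv η)
    (perm g.toEquiv (∑ x ∈ s, lp.single 1 x (η x)))
  rw [LinearIsometry.dist_map, ← e, LinearIsometry.dist_map] at this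
  linarith

theorem infinite (hX : IsRationalUrysohn X) : Infinite X := by
  refine not_finite_iff_infinite.1 fun _ => ?_
  have := Fintype.ofFinite X
  obtain ⟨φ, hφ⟩ := pseudo hX (I := Option X) (fun i j => if i = j then 0 else 1) (by simp)
    (fun i j => by simp only [eq_comm]) (fun i j k => by
      split_ifs <;> simp_all) fun i j => by
      split_ifs
      exacts [⟨0, by simp⟩, ⟨1, by simp⟩]
  have := Fintype.card_le_of_injective φ fun i j e => by
    by_contra h
    simpa [e, h] using hφ i j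
  simp at this

theorem act_free (hX : IsRationalUrysohn X) (x0 : X) (v : Z X) : ¬ ∀ g, act x0 g v = v := by
  intro h
  have := infinite hX
  have t : lp.tsumCLM ℝ X ℝ (v.1 + lp.single 1 x0 1) = 1 := by
    rw [map_add, sum_single, show lp.tsumCLM ℝ X ℝ v.1 = 0 from v.2, zero_add]
  have k : ∀ g : X ≃ᵢ X, v.1 + lp.single 1 x0 1 = perm g.toEquiv (v.1 + lp.single 1 x0 1) :=
    fun g => by rw [← aff_apply, show aff x0 g v = v from h g]
  generalize v.1 + lp.single 1 x0 1 = η at t k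
  have e : (η : X → ℝ) = fun _ => η x0 := funext fun x => by
    obtain ⟨g, hg⟩ := homog hX (fun _ : Unit => x0) (fun _ => x) (by simp)
    rw [← hg ()]
    exact (congrArg (fun a : lp (fun _ : X => ℝ) 1 => a (g x0)) (k g)).trans
      (congrArg η.1 (g.toEquiv.symm_apply_apply x0))
  have s : Summable (η : X → ℝ) := η.2.summable_of_one
  rw [e, summable_const_iff] at s
  rw [lp.tsumCLM_apply, e, s] at t
  simp at t

theorem Embeds.trans {A B C : Type} [NormedAddCommGroup A] [NormedSpace ℝ A] [NormedAddCommGroup B]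
    [NormedSpace ℝ B] [NormedAddCommGroup C] [NormedSpace ℝ C] (h : Embeds A B) (h' : Embeds B C) :
    Embeds A C := by
  obtain ⟨S, a, ha, hS⟩ := h
  obtain ⟨T, b, hb, hT⟩ := h'
  refine ⟨T.comp S, b * a, mul_pos hb ha, fun x => ?_⟩
  rw [mul_assoc]
  exact (mul_le_mul_of_nonneg_left (hS x) hb.le).trans (hT _)

theorem main (hX : IsRationalUrysohn X) (E : Type) [NormedAddCommGroup E] [NormedSpace ℝ E] :
    (∀ (F : Type) [NormedAddCommGroup F] [NormedSpace ℝ F] [CompleteSpace F], Embeds F E →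
      ∀ α : (X ≃ᵢ X) →* (F ≃ᵃⁱ[ℝ] F), IsContinuousAction α → ∃ v, ∀ g, α g v = v) ↔
    ¬ Embeds (lp (fun _ : ℕ => ℝ) 1) E := by
  refine ⟨fun h hE => ?_, fun hE F _ _ _ hF α hα => fixed_point hX (fun e => hE (e.trans hF)) hα⟩
  have := infinite hX
  have := hX.countable
  obtain ⟨e⟩ := nonempty_equiv_of_countable (α := X) (β := ℕ)
  obtain ⟨v, hv⟩ := h (Z X) (Embeds.trans ⟨((perm e).comp (Z X).subtypeₗᵢ).toContinuousLinearMap,
    1, one_pos, fun x => by simp⟩ hE) _ (act_cont (e.symm 0))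
  exact act_free hX _ v hv

end Pool.Agent.Work.MP_3e1351_al
end
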