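import Mathlib

/-! The rational Urysohn space, continuous affine isometric actions of its isometry group, and
isomorphic embeddings of normed spaces. -/

namespace Pool.Agent.Work.MP_3e1351_al

/-- `X` is the rational Urysohn space: countable, with rational distances, universal for finite
metric spaces with rational distances, and ultrahomogeneous. -/
structure IsRationalUrysohn (X : Type) [MetricSpace X] : Prop where
  countable : Countable X
  rational : ∀ x y : X, ∃ q : ℚ, dist x y = q
  universal : ∀ (Y : Type) [MetricSpace Y], Finite Y → (∀ x y : Y, ∃ q : ℚ, dist x y = q) →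
    ∃ φ : Y → X, Isometry φ
  homogeneous : ∀ (A : Finset X) (φ : X → X), (∀ a ∈ A, ∀ b ∈ A, dist (φ a) (φ b) = dist a b) →
    ∃ g : X ≃ᵢ X, ∀ a ∈ A, g a = φ a

/-- `F` embeds isomorphically in `E`: there is a bounded linear map that is bounded below. -/
def Embeds (F E : Type) [NormedAddCommGroup F] [NormedSpace ℝ F] [NormedAddCommGroup E]
    [NormedSpace ℝ E] : Prop :=
  ∃ (T : F →L[ℝ] E) (c : ℝ), 0 < c ∧ ∀ x, c * ‖x‖ ≤ ‖T x‖

/-- Every orbit map `g ↦ α g v` is continuous for the topology of pointwise convergence on the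
discrete set `X`. -/
def IsContinuousAction {X E : Type} [MetricSpace X] [NormedAddCommGroup E] [NormedSpace ℝ E]
    (α : (X ≃ᵢ X) →* (E ≃ᵃⁱ[ℝ] E)) : Prop :=
  ∀ (v : E) (g : X ≃ᵢ X) (ε : ℝ), 0 < ε →
    ∃ F : Finset X, ∀ h : X ≃ᵢ X, (∀ x ∈ F, h x = g x) → dist (α h v) (α g v) < ε

end Pool.Agent.Work.MP_3e1351_al
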